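import Mathlib
import Pool.Agent.H75.DH.Main
import Pool.Agent.H75.DH.Complete

set_option autoImplicit false

/-!
# Depth hierarchy of bounded-depth Frege: from formulas of larger depth to CNF formulas

`Stronger P d e` (see `Pool.Agent.H75.DH.Defs`): depth `e` Frege is exponentially stronger than
depth `d` Frege on the formulas of the class `P`.

Proof. Let `π` be a depth `e + 1` refutation of `F`. Add an extension variable `z_l` for the
conjunction of `l`, for every list `l` of literals which is a bottom gate of `π` or of `F` (or the
negation of the literals of a line of `F`) and for all tails of these lists; the definitions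
`z_(x :: l) ↔ x ∧ z_l` are clauses with three literals. The new formula has a depth `e` refutation
(replace all bottom gates by literals), and substituting the conjunctions for the variables
turns a depth `d` refutation of it into a depth `d + 1` refutation of `F`; all sizes are
polynomially related. If `F` has depth `k + 1 > 2`, the new formula has depth `k`; if `F` is a
CNF formula, it is a 3-CNF formula.

The proof system is sound (`unsat_of_refutes`) and complete (`complete`).
-/

namespace Pool.Agent.Results.MP_1116b5_lc.DepthDifference

open Pool.Agent.H75.DH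

theorem result :
    (∀ d e j : ℕ, 1 ≤ d → d < e →
      (Stronger (DepthLE (j + 2)) (d + j) (e + j) → Stronger (DepthLE 2) d e) ∧
      (Stronger (DepthLE (j + 2)) (d + 1 + j) (e + 1 + j) → Stronger ThreeCnf d e)) ∧
    List.TFAE [
      ∀ d : ℕ, 1 ≤ d → Stronger (DepthLE 2) d (d + 1),
      ∀ d : ℕ, 1 ≤ d → Stronger ThreeCnf d (d + 1),
      ∀ N : ℕ, ∃ d j : ℕ, N ≤ d ∧ Stronger (DepthLE (j + 2)) (d + j) (d + j + 1)] := by
  have h1 : ∀ d e j : ℕ, 1 ≤ d → d < e →
      (Stronger (DepthLE (j + 2)) (d + j) (e + j) → Stronger (DepthLE 2) d e) ∧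
      (Stronger (DepthLE (j + 2)) (d + 1 + j) (e + 1 + j) → Stronger ThreeCnf d e) :=
    fun d e j hd hde => ⟨fun h => down j (by omega) h,
      fun h => step_three (by omega) (down j (by omega) h)⟩
  refine ⟨h1, ?_⟩
  tfae_have 1 → 3 := by
    intro h N
    exact ⟨N + 1, 0, by omega, h (N + 1) (by omega)⟩
  tfae_have 3 → 2 := by
    intro h d hd
    obtain ⟨d', j, hd', hs⟩ := h (d + 1)
    have e1 : d' + j + 1 = d' + 1 + j := by omega
    rw [e1] at hs
    have h2 := down j (d := d') (e := d' + 1) (by omega) hs
    obtain ⟨k, rfl⟩ : ∃ k, d' = d + 1 + k := ⟨d' - (d + 1), by omega⟩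
    have e2 : d + 1 + k + 1 = d + 1 + 1 + k := by omega
    rw [e2] at h2
    exact step_three (by omega) (descend k (d := d + 1) (e := d + 1 + 1) (by omega) h2)
  tfae_have 2 → 1 := fun h d hd => (h d hd).mono fun _ hF => hF.1
  tfae_finish

end Pool.Agent.Results.MP_1116b5_lc.DepthDifference
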