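import Mathlib
import Pool.Agent.H80.HS.Main

set_option autoImplicit false

/-!
# Depth hierarchy of bounded-depth Frege on CNF formulas: half steps

For `2 ≤ d < e` it is equivalent, on CNF formulas, that depth `e` Frege is exponentially stronger
than depth `d` Frege, that depth `e - 1` Frege is exponentially stronger than depth `d` Frege with
small bottom fan-in (depth `d - 1/2` Frege), and that depth `e` Frege with bottom fan-in two is
exponentially stronger than depth `d` Frege. Definitions: `Pool.Agent.H75.DH.Defs`,
`Pool.Agent.H80.HS.Defs`.

Proof. From the first to the second: extension variables for the bottom gates of the short depth `e`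
refutation (`Pool.Agent.H75.DH.new`); a depth `d` refutation of the new formula with small
bottom fan-in is turned into a depth `d` refutation of the old one by substituting the
conjunctions for the variables and distributing the small gates. From the third to the fourth:
replace every variable by a sum of two variables modulo 2; a random restriction, which fixes one of
the two variables, makes all bottom gates small.
-/

namespace Pool.Agent.Results.MP_1116b5_lc.HalfSteps

open Pool.Agent.H75.DH Pool.Agent.H80.HS

theorem result (d e : ℕ) (hd : 2 ≤ d) (hde : d < e) :
    List.TFAE [
      Stronger (DepthLE 2) d e,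
      StrongerThanNarrow d (e - 1),
      StrongerThanHalf d (e - 1),
      NarrowStronger 6 2 d e] := by
  obtain ⟨d, rfl⟩ : ∃ d', d = d' + 1 := ⟨d - 1, by omega⟩
  obtain ⟨e, rfl⟩ : ∃ e', e = e' + 1 := ⟨e - 1, by omega⟩
  tfae_have 1 → 2 := fun h => one_two (by omega) (by omega) h
  tfae_have 2 → 3 := half_of_narrow
  tfae_have 3 → 4 := fun h => three_of_half hd (by omega) h
  tfae_have 4 → 1 := three_one
  tfae_finish

end Pool.Agent.Results.MP_1116b5_lc.HalfSteps
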